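import Pool.Agent.Lib.MP_a78e1f_lc.R.Iface
import Pool.Agent.Lib.MP_c5d73d_lc.F.H62.Roapi

/-!
Module RAPI: the elements of `RA A` given by measurable sets.
-/

set_option autoImplicit false

universe u

open Cardinal Filter MeasureTheory

namespace Pool.Agent.Lib.MP_a78e1f_lc.H20

open Pool.Agent.Lib.MP_100a6c_lc
open Pool.Agent.Lib.MP_c5d73d_lc.F (pr)
open Pool.Agent.Lib.MP_c5d73d_lc.F.H62
open Pool.Agent.Lib.MP_e6fef2_lc
open Pool.Agent.Lib.MP_6d445e_gt

section

variable {A : Type u} [CompleteBooleanAlgebra A]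

theorem nl_empty : nl (∅ : Set (Pt A)) := by
  refine Filter.Eventually.of_forall fun g => ?_
  have : sec (∅ : Set (Pt A)) g = ∅ := by
    ext x
    simp [sec]
  rw [this]
  exact measure_empty

theorem nl_iUnion {E : ℕ → Set (Pt A)} (h : ∀ n, nl (E n)) : nl (⋃ n, E n) := by
  have h1 : ∀ᶠ g in ae A, ∀ n, cm (sec (E n) g) = 0 := ae_all h
  refine h1.mono fun g hg => ?_
  have : sec (⋃ n, E n) g = ⋃ n, sec (E n) g := by
    ext x
    simp [sec]
  rw [this]
  exact measure_iUnion_null hg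

theorem mem_mkR {E : Set (Pt A)} (hE : MeasurableSet E) (p : Po A) :
    p ∈ (mkR E : LowerSet (Po A)) ↔ nl (p.1 \ E) := by
  have h0 : mkR E = gen {n : Po A | nl (n.1 \ E)} := by
    rw [← iSup_pr_eq_gen]
    unfold mkR
    rw [iSup_subtype]
    rfl
  rw [h0, mem_gen]
  constructor
  · intro h
    by_contra hcon
    have hm : MeasurableSet (p.1 \ E) := p.2.1.diff hE
    let q : Po A := ⟨p.1 \ E, hm, hcon⟩
    have hqp : q ≤ p := by
      show nl ((p.1 \ E) \ p.1)
      refine nl_mono ?_ nl_empty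
      intro x hx
      exact absurd hx.1.1 hx.2
    obtain ⟨r, hrq, n, hn, hrn⟩ := h q hqp
    have h1 : nl (r.1 \ (p.1 \ E)) := hrq
    have h2 : nl (r.1 \ n.1) := hrn
    have h3 : nl (n.1 \ E) := hn
    refine r.2.2 (nl_mono ?_ (nl_union (nl_union h1 h2) h3))
    intro x hx
    by_cases h4 : x ∈ p.1 \ E
    · by_cases h5 : x ∈ n.1
      · exact Or.inr ⟨h5, h4.2⟩
      · exact Or.inl (Or.inr ⟨hx, h5⟩)
    · exact Or.inl (Or.inl ⟨hx, h4⟩)
  · intro h q hq
    exact ⟨q, le_rfl, p, h, hq⟩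

theorem pr_le_mkR {E : Set (Pt A)} (hE : MeasurableSet E) (p : Po A) :
    (pr p : RA A) ≤ mkR E ↔ nl (p.1 \ E) := by
  rw [pr_le_iff]
  exact mem_mkR hE p

theorem mkR_le_iff {E F : Set (Pt A)} (hE : MeasurableSet E) (hF : MeasurableSet F) :
    mkR E ≤ mkR F ↔ nl (E \ F) := by
  constructor
  · intro h
    by_contra hcon
    let q : Po A := ⟨E \ F, hE.diff hF, hcon⟩
    have h1 : q ∈ (mkR E : LowerSet (Po A)) := by
      rw [mem_mkR hE]
      refine nl_mono ?_ nl_empty
      intro x hx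
      exact absurd hx.1.1 hx.2
    have h2 : q ∈ (mkR F : LowerSet (Po A)) := h h1
    rw [mem_mkR hF] at h2
    refine hcon (nl_mono ?_ h2)
    intro x hx
    exact ⟨hx, hx.2⟩
  · intro h
    rw [le_iff]
    intro p hp
    have hp' := (mem_mkR hE p).1 hp
    refine (mem_mkR hF p).2 (nl_mono ?_ (nl_union hp' h))
    intro x hx
    by_cases h4 : x ∈ E
    · exact Or.inr ⟨h4, hx.2⟩
    · exact Or.inl ⟨hx.1, h4⟩

theorem pr_eq_mkR (p : Po A) : (pr p : RA A) = mkR p.1 := by
  apply le_antisymm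
  · rw [pr_le_mkR p.2.1]
    refine nl_mono ?_ nl_empty
    intro x hx
    exact absurd hx.1 hx.2
  · rw [le_iff]
    intro q hq
    have hq' : nl (q.1 \ p.1) := (mem_mkR p.2.1 q).1 hq
    rw [mem_pr_iff]
    intro q' hq'q
    have : q ≤ p := hq'
    exact ⟨q', le_rfl, hq'q.trans this⟩

theorem mkR_inter {E F : Set (Pt A)} (hE : MeasurableSet E) (hF : MeasurableSet F) :
    mkR (E ∩ F) = mkR E ⊓ mkR F := by
  apply le_antisymm
  · refine le_inf ?_ ?_
    · rw [mkR_le_iff (hE.inter hF) hE]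
      refine nl_mono ?_ nl_empty
      intro x hx
      exact absurd hx.1.1 hx.2
    · rw [mkR_le_iff (hE.inter hF) hF]
      refine nl_mono ?_ nl_empty
      intro x hx
      exact absurd hx.1.2 hx.2
  · rw [le_iff]
    intro p hp
    rw [← pr_le_iff] at hp
    have h1 : nl (p.1 \ E) := (pr_le_mkR hE p).1 (hp.trans inf_le_left)
    have h2 : nl (p.1 \ F) := (pr_le_mkR hF p).1 (hp.trans inf_le_right)
    refine (mem_mkR (hE.inter hF) p).2 (nl_mono ?_ (nl_union h1 h2))
    intro x hx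
    by_cases h4 : x ∈ E
    · exact Or.inr ⟨hx.1, fun h5 => hx.2 ⟨h4, h5⟩⟩
    · exact Or.inl ⟨hx.1, h4⟩

theorem mkR_empty : mkR (∅ : Set (Pt A)) = ⊥ := by
  rw [eq_bot_iff]
  refine iSup_le fun p => ?_
  exfalso
  have h := p.2
  rw [Set.sdiff_empty] at h
  exact p.1.2.2 h

theorem mkR_univ : mkR (Set.univ : Set (Pt A)) = ⊤ := by
  rw [eq_top_iff, le_iff]
  intro p _
  rw [mem_mkR MeasurableSet.univ]
  rw [Set.sdiff_univ]
  exact nl_empty

theorem mkR_union {E F : Set (Pt A)} (hE : MeasurableSet E) (hF : MeasurableSet F) :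
    mkR (E ∪ F) = mkR E ⊔ mkR F := by
  apply le_antisymm
  · rw [le_iff]
    intro p hp
    have hp' := (mem_mkR (hE.union hF) p).1 hp
    rw [mem_reg]
    intro q hq
    by_cases h1 : nl (q.1 ∩ E)
    · -- `q ≤ F`
      refine ⟨q, le_rfl, ?_⟩
      rw [← pr_le_iff]
      refine le_trans ?_ le_sup_right
      rw [pr_le_mkR hF]
      have hq' : nl (q.1 \ p.1) := hq
      refine nl_mono ?_ (nl_union (nl_union hq' hp') h1)
      intro x hx
      by_cases h4 : x ∈ E
      · exact Or.inr ⟨hx.1, h4⟩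
      · by_cases h5 : x ∈ p.1
        · refine Or.inl (Or.inr ⟨h5, ?_⟩)
          rintro (h6 | h6)
          · exact h4 h6
          · exact hx.2 h6
        · exact Or.inl (Or.inl ⟨hx.1, h5⟩)
    · let r : Po A := ⟨q.1 ∩ E, q.2.1.inter hE, h1⟩
      have hrq : r ≤ q := by
        show nl ((q.1 ∩ E) \ q.1)
        refine nl_mono ?_ nl_empty
        intro x hx
        exact absurd hx.1.1 hx.2
      refine ⟨r, hrq, ?_⟩
      rw [← pr_le_iff]
      refine le_trans ?_ le_sup_left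
      rw [pr_le_mkR hE]
      refine nl_mono ?_ nl_empty
      intro x hx
      exact absurd hx.1.2 hx.2
  · refine sup_le ?_ ?_
    · rw [mkR_le_iff hE (hE.union hF)]
      refine nl_mono ?_ nl_empty
      intro x hx
      exact absurd (Or.inl hx.1) hx.2
    · rw [mkR_le_iff hF (hE.union hF)]
      refine nl_mono ?_ nl_empty
      intro x hx
      exact absurd (Or.inr hx.1) hx.2

theorem mkR_compl {E : Set (Pt A)} (hE : MeasurableSet E) : mkR Eᶜ = (mkR E)ᶜ := by
  symm
  apply IsCompl.compl_eq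
  constructor
  · rw [disjoint_iff]
    have h := (mkR_inter hE hE.compl).symm
    rw [Set.inter_compl_self, mkR_empty] at h
    exact h
  · rw [codisjoint_iff]
    have h := (mkR_union hE hE.compl).symm
    rw [Set.union_compl_self, mkR_univ] at h
    exact h

theorem mkR_iUnion {E : ℕ → Set (Pt A)} (hE : ∀ n, MeasurableSet (E n)) :
    mkR (⋃ n, E n) = ⨆ n, mkR (E n) := by
  have hU : MeasurableSet (⋃ n, E n) := MeasurableSet.iUnion hE
  apply le_antisymm
  · rw [le_iff]
    intro p hp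
    have hp' := (mem_mkR hU p).1 hp
    rw [mem_reg]
    intro q hq
    by_cases h1 : ∀ n, nl (q.1 ∩ E n)
    · exfalso
      have hq' : nl (q.1 \ p.1) := hq
      have h2 := nl_iUnion h1
      refine q.2.2 (nl_mono ?_ (nl_union (nl_union hq' hp') h2))
      intro x hx
      by_cases h4 : x ∈ ⋃ n, E n
      · obtain ⟨n, hn⟩ := Set.mem_iUnion.1 h4
        exact Or.inr (Set.mem_iUnion.2 ⟨n, hx, hn⟩)
      · by_cases h5 : x ∈ p.1
        · exact Or.inl (Or.inr ⟨h5, h4⟩)
        · exact Or.inl (Or.inl ⟨hx, h5⟩)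
    · push Not at h1
      obtain ⟨n, hn⟩ := h1
      let r : Po A := ⟨q.1 ∩ E n, q.2.1.inter (hE n), hn⟩
      have hrq : r ≤ q := by
        show nl ((q.1 ∩ E n) \ q.1)
        refine nl_mono ?_ nl_empty
        intro x hx
        exact absurd hx.1.1 hx.2
      refine ⟨r, hrq, ?_⟩
      rw [← pr_le_iff]
      refine le_trans ?_ (le_iSup _ n)
      rw [pr_le_mkR (hE n)]
      refine nl_mono ?_ nl_empty
      intro x hx
      exact absurd hx.1.2 hx.2
  · refine iSup_le fun n => ?_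
    rw [mkR_le_iff (hE n) hU]
    refine nl_mono ?_ nl_empty
    intro x hx
    exact absurd (Set.mem_iUnion.2 ⟨n, hx.1⟩) hx.2

theorem mkR_eq_bot {E : Set (Pt A)} (hE : MeasurableSet E) : mkR E = ⊥ ↔ nl E := by
  rw [← le_bot_iff, ← mkR_empty, mkR_le_iff hE MeasurableSet.empty, Set.sdiff_empty]

end

/-- RAPI -/
theorem rapi : RapiStatement.{u} := by
  intro A _
  refine ⟨fun E F hE hF => mkR_le_iff hE hF, fun E F hE hF => mkR_inter hE hF,
    fun E hE => mkR_compl hE, fun E hE => mkR_iUnion hE, mkR_univ, mkR_empty,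
    fun E hE => mkR_eq_bot hE, fun p => pr_eq_mkR p, ?_, ?_⟩
  · intro r hr
    obtain ⟨p, hp⟩ := H1.exists_mem_of_ne_bot hr
    refine ⟨p, ?_⟩
    rw [← pr_eq_mkR]
    exact (pr_le_iff p r).2 hp
  · intro r
    apply le_antisymm
    · conv_lhs => rw [eq_iSup_pr r]
      refine iSup_le fun p => ?_
      have h1 : mkR p.1.1 ≤ r := by
        rw [← pr_eq_mkR]
        exact p.2
      rw [pr_eq_mkR]
      exact le_iSup_of_le (⟨p.1, h1⟩ : {p : Po A // mkR p.1 ≤ r}) le_rfl
    · exact iSup_le fun p => p.2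

end Pool.Agent.Lib.MP_a78e1f_lc.H20
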